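import Pool.Agent.H78.GS.TA3

/-!
# The induction on the scale
-/

set_option autoImplicit false

open Finset Pool.Agent.H6.N4D Pool.Agent.H78.GS

namespace Pool.Agent.H43.GS3

theorem two_sq_le_pow (k : ℕ) (hk : 7 ≤ k) : 2 * (k : ℝ) ^ 2 ≤ 2 ^ k := by
  induction k, hk using Nat.le_induction with
  | base => norm_num
  | succ k hk ih =>
    have hk' : (7 : ℝ) ≤ k := by exact_mod_cast hk
    push_cast
    rw [pow_succ (2 : ℝ) k]
    nlinarith

/-- growth: `K L` is smaller than `X ^ (1/4)` -/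
theorem KL_le (K : ℕ) (hK : 1 ≤ K) : ∃ X₀ : ℝ, ∀ X, X₀ ≤ X → K * LL X ≤ X ^ (1 / 4 : ℝ) := by
  have hK' : (1 : ℝ) ≤ K := by exact_mod_cast hK
  refine ⟨max 3 ((8 * K) ^ 8), fun X hX => ?_⟩
  have h3 : 3 ≤ X := (le_max_left _ _).trans hX
  have h8 : (8 * (K : ℝ)) ^ 8 ≤ X := (le_max_right _ _).trans hX
  have hX0 : 0 ≤ X := by linarith
  have hlog : 1 ≤ Real.log X := by
    rw [Real.le_log_iff_exp_le (by linarith)]
    have := Real.exp_one_lt_d9
    linarith
  have hLL : LL X ≤ Real.log X := by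
    unfold LL
    calc Real.log X ^ (19 / 20 : ℝ) ≤ Real.log X ^ (1 : ℝ) :=
          Real.rpow_le_rpow_of_exponent_le hlog (by norm_num)
      _ = Real.log X := Real.rpow_one _
  have hl : Real.log X ≤ 8 * X ^ (1 / 8 : ℝ) := by
    have := Real.log_le_rpow_div hX0 (by norm_num : (0 : ℝ) < 1 / 8)
    linarith
  have h18 : 8 * (K : ℝ) ≤ X ^ (1 / 8 : ℝ) := by
    have h := Real.rpow_le_rpow (by positivity) h8 (by norm_num : (0 : ℝ) ≤ 1 / 8)
    rw [← Real.rpow_natCast, ← Real.rpow_mul (by positivity)] at h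
    norm_num at h
    linarith
  have hsq : X ^ (1 / 4 : ℝ) = X ^ (1 / 8 : ℝ) * X ^ (1 / 8 : ℝ) := by
    rw [← Real.rpow_add (by linarith)]
    norm_num
  rw [hsq]
  have hp : 0 ≤ X ^ (1 / 8 : ℝ) := by positivity
  calc K * LL X ≤ K * (8 * X ^ (1 / 8 : ℝ)) :=
        mul_le_mul_of_nonneg_left (hLL.trans hl) (by linarith)
    _ = (8 * K) * X ^ (1 / 8 : ℝ) := by ring
    _ ≤ X ^ (1 / 8 : ℝ) * X ^ (1 / 8 : ℝ) := mul_le_mul_of_nonneg_right h18 hp

/-- The bound for the increments. -/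
theorem incr {D y A : ℝ} (hy : 0 < y) (hD : 0 ≤ D) (h : D * (1 - Real.exp (-y)) ≤ A) :
    D ≤ A * (1 + 1 / y) := by
  have h1 : y / (1 + y) ≤ 1 - Real.exp (-y) := by
    have h2 := Real.add_one_le_exp y
    have h3 : Real.exp (-y) ≤ 1 / (1 + y) := by
      rw [Real.exp_neg, inv_eq_one_div]
      exact one_div_le_one_div_of_le (by linarith) (by linarith)
    have h4 : y / (1 + y) = 1 - 1 / (1 + y) := by
      field_simp
      ring
    linarith
  have h5 : D * (y / (1 + y)) ≤ A := (mul_le_mul_of_nonneg_left h1 hD).trans h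
  have h6 : D = D * (y / (1 + y)) * (1 + 1 / y) := by
    field_simp
    ring
  rw [h6]
  exact mul_le_mul_of_nonneg_right h5 (by positivity)

/-- IND. -/
theorem pf_IND (hSTP : Pool.Agent.H78.GS.T_STP) (hSIZ : T_SIZ) : T_IND := by
  intro K hK
  obtain ⟨X₁, hX₁⟩ := hSIZ
  obtain ⟨X₂, hX₂⟩ := KL_le K hK
  refine ⟨max X₁ X₂, ?_⟩
  intro S e₁ κ ν s M θ F hOk hSK hX he0 he1 hν0 hν1 hκ0 hκ1 hs hSep hRk hML hMN hcard hdic hbase
  obtain ⟨hL1, _, _, hrho, hh4, _, _, _, _, _, _, hN, _⟩ :=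
    hX₁ S hOk ((le_max_left _ _).trans hX)
  have hKL : K * S.L ≤ S.X ^ (1 / 4 : ℝ) := hX₂ S.X ((le_max_right _ _).trans hX)
  have hh : 0 < S.h := hOk.hh
  have hr0 : 0 < S.rho := hOk.hr0
  have hr1 := hOk.hr1
  have hI2 := hOk.hI2
  rw [hSK] at hI2
  have hKL' : K * S.L * S.rho ≤ 1 := by
    have := mul_le_mul_of_nonneg_right hKL hr0.le
    linarith
  have hrho3 : S.rho ^ 4 ≤ S.rho / 8 := by
    have h2 : S.rho ^ 3 ≤ 1 / 8 := by
      have : S.rho ^ 3 ≤ (1 / 100) ^ 3 := pow_le_pow_left₀ hr0.le hrho 3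
      norm_num at this ⊢
      linarith
    have : S.rho ^ 4 = S.rho * S.rho ^ 3 := by ring
    rw [this]
    nlinarith
  obtain ⟨N₀, hN₀⟩ : ∃ N₀, N₀ = ⌊S.rho / (4 * S.h)⌋₊ := ⟨_, rfl⟩
  rw [← hN₀] at hbase
  have hN0a : (N₀ : ℝ) * S.h ≤ S.rho / 4 := by
    have h1 : (N₀ : ℝ) ≤ S.rho / (4 * S.h) := by
      rw [hN₀]
      exact Nat.floor_le (by positivity)
    rw [le_div_iff₀ (by positivity)] at h1
    linarith
  have hN0b : S.rho / 8 ≤ (N₀ : ℝ) * S.h := by
    have h1 : S.rho / (4 * S.h) < N₀ + 1 := by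
      rw [hN₀]
      exact Nat.lt_floor_add_one _
    rw [div_lt_iff₀ (by positivity)] at h1
    linarith
  have hN0pos : 1 ≤ N₀ := by
    rcases Nat.eq_zero_or_pos N₀ with h | h
    · rw [h] at hN0b
      simp at hN0b
      linarith
    · exact h
  have hN0M : N₀ ≤ M := by
    have h1 : (N₀ : ℝ) * S.h ≤ M * S.h := by linarith
    have h2 := le_of_mul_le_mul_right h1 hh
    exact_mod_cast h2
  set A := 2 * ν * e₁ / S.rho with hA
  have hA0 : 0 ≤ A := by positivity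
  have hy0 : 0 < (N₀ : ℝ) * S.h := by linarith
  -- the number of steps is small
  have hk : ∀ k : ℕ, 2 ^ k * N₀ ≤ M → (k : ℝ) ≤ 1 / S.rho := by
    intro k hkM
    by_contra hlt
    push Not at hlt
    have h1 : (2 : ℝ) ^ k * N₀ ≤ M := by exact_mod_cast hkM
    have h2 : (2 : ℝ) ^ k * (N₀ * S.h) ≤ 13 * K * S.L / 100 := by
      calc (2 : ℝ) ^ k * (N₀ * S.h) = ((2 : ℝ) ^ k * N₀) * S.h := by ring
        _ ≤ M * S.h := mul_le_mul_of_nonneg_right h1 hh.le
        _ ≤ S.N / 100 * S.h := mul_le_mul_of_nonneg_right hMN hh.le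
        _ = S.N * S.h / 100 := by ring
        _ ≤ 13 * K * S.L / 100 := by linarith
    have h3 : (2 : ℝ) ^ k * (S.rho / 8) ≤ 13 * K * S.L / 100 :=
      (mul_le_mul_of_nonneg_left hN0b (by positivity)).trans h2
    have h4 : (2 : ℝ) ^ k * S.rho ^ 2 ≤ 104 / 100 := by
      have := mul_le_mul_of_nonneg_right h3 hr0.le
      nlinarith
    have h5 : 100 ≤ 1 / S.rho := by
      rw [le_div_iff₀ hr0]
      linarith
    have h6 : 7 ≤ k := by
      have : (100 : ℝ) < k := by linarith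
      have : 100 < k := by exact_mod_cast this
      omega
    have h7 := two_sq_le_pow k h6
    have h8 : 1 < k * S.rho := by
      rw [div_lt_iff₀ hr0] at hlt
      exact hlt
    have h9 : 1 < (k * S.rho) ^ 2 := by nlinarith
    have h10 : 2 * (k : ℝ) ^ 2 * S.rho ^ 2 ≤ 2 ^ k * S.rho ^ 2 :=
      mul_le_mul_of_nonneg_right h7 (by positivity)
    nlinarith
  -- the size of the displacements
  have hsize : ∀ (k : ℕ) (T : ℝ), 2 ^ k * N₀ ≤ M →
      |T| ≤ A * (k + 1 / (N₀ * S.h) * (1 - (1 / 2) ^ k)) → |T| ≤ e₁ / S.rho ^ 2 := by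
    intro k T hkM hT
    have h1 := hk k hkM
    have h2 : 1 / ((N₀ : ℝ) * S.h) ≤ 8 / S.rho := by
      rw [div_le_div_iff₀ hy0 hr0]
      linarith
    have h3 : (1 : ℝ) - (1 / 2) ^ k ≤ 1 := by
      have : (0 : ℝ) ≤ (1 / 2) ^ k := by positivity
      linarith
    have h3' : (0 : ℝ) ≤ 1 - (1 / 2) ^ k := by
      have : ((1 : ℝ) / 2) ^ k ≤ 1 := pow_le_one₀ (by norm_num) (by norm_num)
      linarith
    have h4 : 1 / ((N₀ : ℝ) * S.h) * (1 - (1 / 2) ^ k) ≤ 8 / S.rho := by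
      calc _ ≤ 8 / S.rho * 1 := mul_le_mul h2 h3 h3' (by positivity)
        _ = _ := mul_one _
    have h5 : (k : ℝ) + 1 / ((N₀ : ℝ) * S.h) * (1 - (1 / 2) ^ k) ≤ 9 / S.rho := by
      have : (9 : ℝ) / S.rho = 1 / S.rho + 8 / S.rho := by ring
      linarith
    refine hT.trans ((mul_le_mul_of_nonneg_left h5 hA0).trans ?_)
    have h6 : A * (9 / S.rho) = 18 * ν * (e₁ / S.rho ^ 2) := by
      rw [hA]
      field_simp
      ring
    rw [h6]
    have h7 : 0 ≤ e₁ / S.rho ^ 2 := by positivity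
    nlinarith
  have key : ∀ k : ℕ, 2 ^ k * N₀ ≤ M →
      ∃ T : ℝ, |T| ≤ A * (k + 1 / (N₀ * S.h) * (1 - (1 / 2) ^ k)) ∧
        HT S e₁ κ ν θ F T (2 ^ k * N₀) := by
    intro k
    induction k with
    | zero =>
      intro _
      refine ⟨0, ?_, ?_⟩
      · simp
      · rw [pow_zero, one_mul]
        exact hbase
    | succ k ih =>
      intro hkM
      have hkM' : 2 * (2 ^ k * N₀) ≤ M := by
        rw [pow_succ] at hkM
        calc 2 * (2 ^ k * N₀) = 2 ^ k * 2 * N₀ := by ring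
          _ ≤ M := hkM
      have hkM0 : 2 ^ k * N₀ ≤ M := by omega
      obtain ⟨T, hT, hHT⟩ := ih hkM0
      have hT2 : |T| ≤ 1 / (2 * S.rho ^ 2) := by
        refine (hsize k T hkM0 hT).trans ?_
        rw [div_le_div_iff₀ (by positivity) (by positivity)]
        nlinarith [sq_nonneg S.rho, pow_pos hr0 2]
      have hNk : 1 ≤ 2 ^ k * N₀ := Nat.one_le_iff_ne_zero.mpr (by positivity)
      have hNk2 : 2 * ((2 ^ k * N₀ : ℕ) : ℝ) ≤ S.N / 100 := by
        have : ((2 * (2 ^ k * N₀) : ℕ) : ℝ) ≤ M := by exact_mod_cast hkM'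
        push_cast at this ⊢
        linarith
      obtain ⟨T', hT', hHT'⟩ := hSTP S e₁ κ ν T s (2 ^ k * N₀) θ F hOk hN he0 he1 hν0 (by linarith)
        hκ0 hκ1 hs hNk hNk2 hSep hRk (fun D hD => hcard D (hD.trans hkM'))
        (fun D c hD hc => hdic D c (hD.trans hkM') hc) hT2 hHT
      refine ⟨T', ?_, ?_⟩
      · have hy : 0 < S.h * (2 * ((2 ^ k * N₀ : ℕ) : ℝ)) := by
          have : (0 : ℝ) < ((2 ^ k * N₀ : ℕ) : ℝ) := by exact_mod_cast hNk
          positivity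
        have h1 := incr hy (abs_nonneg _) hT'
        have h2 : 1 / (S.h * (2 * ((2 ^ k * N₀ : ℕ) : ℝ))) =
            1 / (N₀ * S.h) * (1 / 2) ^ (k + 1) := by
          have hN0ne : (N₀ : ℝ) ≠ 0 := by
            have : (0 : ℝ) < N₀ := by exact_mod_cast hN0pos
            exact this.ne'
          push_cast
          rw [one_div_pow, pow_succ]
          field_simp
        rw [h2] at h1
        have h3 : |T'| ≤ |T| + |T' - T| := by
          have := abs_add_le T (T' - T)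
          rwa [add_sub_cancel] at this
        refine h3.trans ((add_le_add hT h1).trans (le_of_eq ?_))
        push_cast
        rw [pow_succ]
        ring
      · have : 2 ^ (k + 1) * N₀ = 2 * (2 ^ k * N₀) := by rw [pow_succ]; ring
        rw [this]
        exact hHT'
  -- the last step
  set k := Nat.log 2 (M / N₀) with hkdef
  have hq : M / N₀ ≠ 0 := by
    have := Nat.div_pos hN0M hN0pos
    omega
  have hk1 : 2 ^ k * N₀ ≤ M := by
    have := Nat.pow_log_le_self 2 hq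
    calc 2 ^ k * N₀ ≤ (M / N₀) * N₀ := Nat.mul_le_mul_right _ this
      _ ≤ M := Nat.div_mul_le_self _ _
  have hk2 : M < 2 ^ (k + 1) * N₀ := by
    have := Nat.lt_pow_succ_log_self (b := 2) (by norm_num) (M / N₀)
    exact (Nat.div_lt_iff_lt_mul hN0pos).mp this
  obtain ⟨T, hT, hHT⟩ := key k hk1
  refine ⟨T, 2 ^ k * N₀, hsize k T hk1 hT, ?_, hk1, hHT⟩
  have h1 : (M : ℝ) < 2 * ((2 ^ k * N₀ : ℕ) : ℝ) := by
    have : M < 2 * (2 ^ k * N₀) := by
      rw [pow_succ] at hk2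
      calc M < 2 ^ k * 2 * N₀ := hk2
        _ = 2 * (2 ^ k * N₀) := by ring
    exact_mod_cast this
  have h2 := mul_le_mul_of_nonneg_right h1.le hh.le
  linarith

end Pool.Agent.H43.GS3
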